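import Mathlib
import Pool.Agent.U178.GG.Cov
import Pool.Agent.U178.GG.Gens
import Pool.Agent.V1153.UG.Spe
import Pool.Agent.V1153.XS.Mv
import Pool.Agent.Y377.IL.AllC

/-!
# The Green-Griffiths-Lang conjecture for entire curves given by exponential sums

We consider the holomorphic maps from `ℂ`, and from `ℂ ^ k` for any `k`, to a complex projective
variety `X` whose homogeneous coordinates are sums of at most `r` products `p e ^ g`, with polynomials
`p` of degree at most `d` and *arbitrary* entire functions `g`.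

Through *every* point of the image of such a map passes a rational curve in `X` of degree at most `N`,
where `N` depends only on `r` and `d`, the dimension of the projective space, and the degrees of the
equations of `X`; it does not depend on `k`. If `X` is of general type, or has a nonzero pluricanonical
form, or is only not covered by rational curves, then all these maps have their images in one proper
closed subset of `X`.
-/

set_option autoImplicit false

namespace Pool.Agent.Results.MP_2a5ae2_ag.ExponentialSumMaps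

open MvPolynomial Pool.Agent.V1153.UG
open Pool.Agent.W602.GT (GeneralType)
open Pool.Agent.TH143.GT (FunField Covered Pluricanonical)

variable {n : ℕ}

/-- `f` is the vector of entire homogeneous coordinates, without common zeros, of a nonconstant
holomorphic map from `ℂ ^ k` to the projective algebraic set `X` on which the forms in `I` vanish; for
`k = 1` these are the nonconstant entire curves in `X`. -/
structure HolMap (k : ℕ) (I : Ideal (MvPolynomial (Fin (n + 1)) ℂ))
    (f : (Fin k → ℂ) → Fin (n + 1) → ℂ) : Prop where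
  diff : ∀ j, Differentiable ℂ fun z => f z j
  ne : ∀ z, f z ≠ 0
  mem : ∀ z, ∀ F ∈ I, (∃ m, F.IsHomogeneous m) → eval (f z) F = 0
  nc : ∃ z w j l, f z j * f w l ≠ f z l * f w j

/-- `P` is the vector of homogeneous coordinates, polynomials of degree at most `N`, of a nonconstant
rational curve in `X`. -/
structure RationalCurve (I : Ideal (MvPolynomial (Fin (n + 1)) ℂ)) (N : ℕ)
    (P : Fin (n + 1) → Polynomial ℂ) : Prop where
  deg : ∀ j, (P j).natDegree ≤ N
  mem : ∀ F ∈ I, (∃ m, F.IsHomogeneous m) → aeval P F = 0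
  nc : ∃ s t j k, (P j).eval s * (P k).eval t ≠ (P k).eval s * (P j).eval t

/-- The function `f` on `ℂ ^ k` is a sum of `r` functions `p e ^ g` with a polynomial `p` of degree at
most `d` and an entire function `g`. -/
def ExponentialSum (k r d : ℕ) (f : (Fin k → ℂ) → ℂ) : Prop :=
  ∃ (p : Fin r → MvPolynomial (Fin k) ℂ) (g : Fin r → (Fin k → ℂ) → ℂ),
    (∀ i, (p i).totalDegree ≤ d ∧ Differentiable ℂ (g i)) ∧
    ∀ z, f z = ∑ i, eval z (p i) * Complex.exp (g i z)

theorem map_iff {k : ℕ} {I : Ideal (MvPolynomial (Fin (n + 1)) ℂ)}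
    {f : (Fin k → ℂ) → Fin (n + 1) → ℂ} :
    Pool.Agent.V1153.XS.Map k I 1 f ↔ HolMap k I f :=
  ⟨fun h => ⟨h.diff, h.ne, h.mem, h.nc⟩, fun h => ⟨h.diff, h.ne, h.mem, fun z => by
    rw [map_one]
    exact one_ne_zero, h.nc⟩⟩

theorem gm_iff {I : Ideal (MvPolynomial (Fin (n + 1)) ℂ)} {N : ℕ}
    {P : Fin (n + 1) → Polynomial ℂ} : GmBdd I 1 N P ↔ RationalCurve I N P :=
  ⟨fun h => ⟨h.deg, h.mem, h.nc⟩, fun h => ⟨h.deg, h.mem, ⟨1, 0, one_ne_zero, by simp⟩, h.nc⟩⟩

theorem rat_of_span {I : Ideal (MvPolynomial (Fin (n + 1)) ℂ)}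
    {E : Set (MvPolynomial (Fin (n + 1)) ℂ)}
    (hE : ∀ F ∈ I, (∃ m, F.IsHomogeneous m) → F ∈ Ideal.span E) (hEh : ∀ F ∈ E, ∃ m,
      F.IsHomogeneous m) {N : ℕ} {P : Fin (n + 1) → Polynomial ℂ}
    (h : RationalCurve (Ideal.span E) N P) : RationalCurve I N P := by
  refine ⟨h.deg, fun F hF hFh => ?_, h.nc⟩
  have h1 : Ideal.span E ≤ RingHom.ker (aeval P : MvPolynomial (Fin (n + 1)) ℂ →ₐ[ℂ]
      Polynomial ℂ) := by
    rw [Ideal.span_le]
    intro G hG
    exact h.mem G (Ideal.subset_span hG) (hEh G hG)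
  exact h1 (hE F hF hFh)

theorem hol_to_span {I : Ideal (MvPolynomial (Fin (n + 1)) ℂ)}
    {E : Set (MvPolynomial (Fin (n + 1)) ℂ)} (hEI : ∀ F ∈ E, F ∈ I)
    {k : ℕ} {f : (Fin k → ℂ) → Fin (n + 1) → ℂ} (h : HolMap k I f) :
    HolMap k (Ideal.span E) f :=
  ⟨h.diff, h.ne, fun z F hF hFh => h.mem z F ((Ideal.span_le.2 hEI) hF) hFh, h.nc⟩

/-- (1) For all `n`, `D`, `r`, `d` there is a number `N` such that for all closed subsets `X` of the
projective space of dimension `n` which are given by forms of degree at most `D`, for all `k` and all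
nonconstant holomorphic maps `f` from `ℂ ^ k` to `X` whose homogeneous coordinates are sums of `r`
functions `p e ^ g`, with polynomials `p` of degree at most `d` and entire functions `g`, there is a
nonconstant rational curve of degree at most `N` in `X` through every point of the image of `f`. In
particular, there are no such maps if there is no nonconstant rational curve of degree at most `N` in
`X`.

(2) Conversely, through every point of a nonconstant rational curve of degree at most `N` in `X` passes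
an entire curve in `X` whose homogeneous coordinates are polynomials of degree at most `N` (so they
are such sums with `r = 1` and `d = N`).

(3) Let `X` be irreducible with the prime ideal `I`, the function field `K`, the generic point `y` and
the dimension `w`. If `X` is not covered by rational curves then for all `r` and `d` there is one
proper closed subset of `X` which contains, for all `k`, the images of all nonconstant holomorphic
maps from `ℂ ^ k` to `X` whose homogeneous coordinates are sums of `r` functions `p e ^ g` as in (1).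
This applies if `X` is of general type, and if `X` has a nonzero pluricanonical form. -/
theorem result :
    (∀ n D r d : ℕ, ∃ N : ℕ, ∀ E : Set (MvPolynomial (Fin (n + 1)) ℂ),
      (∀ F ∈ E, ∃ a ≤ D, F.IsHomogeneous a) →
      (∀ (k : ℕ) (f : (Fin k → ℂ) → Fin (n + 1) → ℂ), HolMap k (Ideal.span E) f →
        (∀ j, ExponentialSum k r d fun z => f z j) →
        ∀ z, ∃ P, RationalCurve (Ideal.span E) N P ∧ (fun j => (P j).eval 1) = f z) ∧
      ((∀ P, ¬ RationalCurve (Ideal.span E) N P) →
        ∀ (k : ℕ) (f : (Fin k → ℂ) → Fin (n + 1) → ℂ), HolMap k (Ideal.span E) f →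
          ¬ ∀ j, ExponentialSum k r d fun z => f z j)) ∧
    (∀ (n : ℕ) (I : Ideal (MvPolynomial (Fin (n + 1)) ℂ)) (N : ℕ)
      (P : Fin (n + 1) → Polynomial ℂ), RationalCurve I N P →
      ∃ P' : Fin (n + 1) → Polynomial ℂ, (∀ j, (P' j).natDegree ≤ N) ∧
        HolMap 1 I (fun z j => (P' j).eval (z 0)) ∧
        (∀ j, ExponentialSum 1 1 N fun z => (P' j).eval (z 0)) ∧
        ∀ t, ∃ c : ℂ, (fun j => (P j).eval t) = c • fun j => (P' j).eval t) ∧
    (∀ (n : ℕ) (I : Ideal (MvPolynomial (Fin (n + 1)) ℂ)), I.IsPrime → ∀ (K : Type) [Field K]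
      [Algebra ℂ K] (w : ℕ) (y : Fin (n + 1) → K), FunField I 1 K w y →
      (¬ Covered K → ∀ r d : ℕ, ∃ G : MvPolynomial (Fin (n + 1)) ℂ, (∃ m, G.IsHomogeneous m) ∧
        G ∉ I ∧ ∀ (k : ℕ) (f : (Fin k → ℂ) → Fin (n + 1) → ℂ), HolMap k I f →
          (∀ j, ExponentialSum k r d fun z => f z j) → ∀ z, eval (f z) G = 0) ∧
      (GeneralType ℂ K w → ¬ Covered K) ∧
      ((∃ N, 0 < N ∧ ∃ ω : (Fin w → Derivation ℂ K K) → K, Pluricanonical w N ω ∧ ω ≠ 0) →
        ¬ Covered K)) := by
  refine ⟨fun n D r d => ?_, fun n I N P hP => ?_, fun n I hI K _ _ w y hy => ?_⟩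
  · obtain ⟨N, hN⟩ := Pool.Agent.V1153.XS.map_point n D r d
    refine ⟨N, fun E hE => ⟨fun k f hf he z => ?_, fun hno k f hf he => ?_⟩⟩
    · obtain ⟨P, hP, h1⟩ := hN E 1 ⟨hE, ⟨0, Nat.zero_le _, isHomogeneous_one _ _⟩⟩ k f
        (map_iff.2 hf) he z
      exact ⟨P, gm_iff.1 hP, h1⟩
    · obtain ⟨P, hP, -⟩ := hN E 1 ⟨hE, ⟨0, Nat.zero_le _, isHomogeneous_one _ _⟩⟩ k f
        (map_iff.2 hf) he 0
      exact hno P (gm_iff.1 hP)
  · obtain ⟨g, P', hg, hPP, hpr⟩ := (gm_iff.2 hP).prim (isHomogeneous_one (Fin (n + 1)) ℂ)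
    have hdeg : ∀ j, (P' j).natDegree ≤ N := by
      intro j
      by_cases h0 : P' j = 0
      · rw [h0, Polynomial.natDegree_zero]
        exact Nat.zero_le _
      · have h1 := hP.deg j
        rw [hPP j, Polynomial.natDegree_mul hg h0] at h1
        omega
    refine ⟨P', hdeg, ⟨fun j => ?_, fun z h0 => ?_, fun z F hF hFh => hpr.mem _ F hF hFh, ?_⟩,
      fun j => ?_, fun t => ⟨g.eval t, ?_⟩⟩
    · exact (P' j).differentiable.comp (differentiable_apply 0)
    · obtain ⟨j, hj⟩ := hpr.ne (z 0)
      exact hj (congrFun h0 j)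
    · obtain ⟨s, t, j, k, -, -, hst⟩ := hpr.nc
      exact ⟨fun _ => s, fun _ => t, j, k, hst⟩
    · refine ⟨fun _ => Polynomial.aeval (X 0) (P' j), fun _ _ => 0, fun _ => ⟨?_,
        differentiable_const _⟩, fun z => ?_⟩
      · rw [Polynomial.aeval_eq_sum_range' (n := N + 1) (by have := hdeg j; omega)]
        refine (totalDegree_finsetSum _ _).trans (Finset.sup_le fun i hi => ?_)
        refine (totalDegree_smul_le _ _).trans ((totalDegree_pow _ _).trans ?_)
        rw [totalDegree_X, mul_one]
        have := Finset.mem_range.1 hi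
        omega
      · simp only [Finset.univ_unique, Finset.sum_singleton, Complex.exp_zero, mul_one]
        rw [← MvPolynomial.coe_aeval_eq_eval, RingHom.coe_coe, ← Polynomial.aeval_algHom_apply,
          MvPolynomial.aeval_X, Polynomial.coe_aeval_eq_eval]
    · funext j
      rw [hPP j, Polynomial.eval_mul]
      rfl
  · have hcov : Covered K ↔ GmRuled I 1 :=
      ⟨Pool.Agent.U178.GG.ruled_of_covered hy, Pool.Agent.U178.GG.covered_of_ruled hy⟩
    refine ⟨fun hnc r d => ?_, fun hg hc => ?_, fun ⟨N, hN, ω, hω, h0⟩ hc => ?_⟩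
    · obtain ⟨D, E, hE, hEI, hIE⟩ := Pool.Agent.U178.GG.exists_gens I
      obtain ⟨N, hN⟩ := Pool.Agent.V1153.XS.map_point n D r d
      obtain ⟨G, hG, hGI, hall⟩ := thin_of_not_ruled hI (isHomogeneous_one (Fin (n + 1)) ℂ)
        (fun h => hnc (hcov.2 h)) N
      refine ⟨G, hG, hGI, fun k f hf he z => ?_⟩
      obtain ⟨P, hP, h1⟩ := hN E 1 ⟨hE, ⟨0, Nat.zero_le _, isHomogeneous_one _ _⟩⟩ k f
        (map_iff.2 (hol_to_span hEI hf)) he z
      have h2 := hall P (gm_iff.2 (rat_of_span hIE (fun F hF => by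
        obtain ⟨a, -, ha⟩ := hE F hF
        exact ⟨a, ha⟩) (gm_iff.1 hP))) 1
      rwa [h1] at h2
    · obtain ⟨N, hN, ω, hω, h0⟩ := Pool.Agent.Y377.IL.form_of_gt hg
      exact h0 (Pool.Agent.U178.GG.pluri_of_ruled hy (hcov.1 hc) N hN ω hω)
    · exact h0 (Pool.Agent.U178.GG.pluri_of_ruled hy (hcov.1 hc) N hN ω hω)

end Pool.Agent.Results.MP_2a5ae2_ag.ExponentialSumMaps
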