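import Mathlib
import Pool.Agent.U178.WF.Pts
import Pool.Agent.U178.WF.Rat

/-!
# Entire curves with few ramification points and rational curves of bounded degree

Let `X` be the zeros, in complex projective `N`-space, of any set of forms of degree at most `D`.

**Theorem.** (1) For all `M` and `e` there are numbers `B` and `C`, which depend only on `N`, `D`, `M`
and `e`, such that every entire curve `f = P(G)` in `X`, where `G = (G_0, …, G_M)` are entire functions
and `P` is given by forms of degree `e`, satisfies

`T_f(r) ≤ C (N₁(W, r) + log r + log⁺ T_G(r))`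

for all `r ≥ 1` outside a set of finite measure, where `W` is the Wronskian determinant of `G` and `N₁`
counts every zero once, **or** through every point of `f` passes a rational curve in `X` of degree at
most `B`.

(2) For all `k` there is a number `B`, which depends only on `N`, `D` and `k`, such that through every
point of every nonconstant entire curve in `X` with at most `k` ramification points (zeros of the
Wronskian determinant of a basis of the linear span of the homogeneous coordinates) passes a rational
curve in `X` of degree at most `B`. So, if `X` contains no rational curve of degree at most `B`, then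
every entire curve in `X` with at most `k` ramification points is constant.

There is no condition on the growth of the curves, and all constants are uniform in the **variety** `X`;
the starting results of this type (`MP_160ed4_ag.UniformSpecialSet`, `MP_dc0411_ag.UniformRamification`)
are for one fixed variety and describe Zariski closures of unions of curves. The uniform theorems with
rational curves through all points (`MP_08fe64_ag.RationalCurvesThroughPoints`) are for curves given by
iterated linear differential equations of bounded complexity.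

Proof. Suppose that there are no such `B` and `C`. Then there are varieties `X_k`, curves `f_k` in
`X_k` and points `f_k(z_k)` which do not lie on rational curves in `X_k` of degree at most `k`, such that
`T(r)` is large compared with the right side. In the ultraproduct of the fields of meromorphic functions
the curves `f_k` define one point `x`. The library `Pool.Agent.N131.SU` shows that `x` lies on a family
of rational curves: the ideal of `x` is the ideal of a point `P(t)` with `P` over a field `M` without
`t`. Let `Y` be the variety of this ideal, over the ultrapower of the field of complex numbers, which is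
isomorphic to the field of complex numbers. Specializations of `P` give rational curves of bounded
degree whose union is dense in `Y`, so through **every** point of `Y` passes such a curve (library
`Pool.Agent.R393.UH`). The points `f_k(z_k)` give a point of `Y`; the curve through it gives rational
curves in `X_k` through `f_k(z_k)` for almost all `k`, of bounded degree, a contradiction.
-/

set_option autoImplicit false

namespace Pool.Agent.Results.MP_2a5ae2_ag.FewRamificationPoints

open MeasureTheory MvPolynomial Pool.Agent.U178.WF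

variable {N M e : ℕ}

/-- The characteristic function of the curve with the homogeneous coordinates `f`: the mean of the
logarithm of the maximum norm over the circle of the radius `r`. -/
noncomputable def T {N : ℕ} (f : Fin (N + 1) → ℂ → ℂ) (r : ℝ) : ℝ :=
  Real.circleAverage (fun z => Real.log ‖fun j => f j z‖) 0 r

/-- The counting function of the zeros of `h`; every zero is counted once. -/
noncomputable def N₁ (h : ℂ → ℂ) (r : ℝ) : ℝ :=
  ∑ᶠ z ∈ {z : ℂ | h z = 0 ∧ ‖z‖ ≤ r}, if z = 0 then Real.log r else Real.log (r / ‖z‖)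

/-- The Wronskian determinant. -/
noncomputable def W {n : ℕ} (g : Fin n → ℂ → ℂ) (z : ℂ) : ℂ :=
  Matrix.det (Matrix.of fun i j : Fin n => iteratedDeriv i (g j) z)

/-- `g` is a basis of the linear span of the functions `G`. -/
structure BasisOf (G : Fin (M + 1) → ℂ → ℂ) {n : ℕ} (g : Fin n → ℂ → ℂ) : Prop where
  ind : LinearIndependent ℂ g
  span : Submodule.span ℂ (Set.range g) = Submodule.span ℂ (Set.range G)

/-- `f = P(G)` is the vector of homogeneous coordinates, without common zeros, of an entire curve, where
`G_0, …, G_M` are entire functions and `P` is given by forms of the degree `e > 0`. -/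
structure Image (e : ℕ) (G : Fin (M + 1) → ℂ → ℂ) (P : Fin (N + 1) → MvPolynomial (Fin (M + 1)) ℂ)
    (f : Fin (N + 1) → ℂ → ℂ) : Prop where
  hol : ∀ k, Differentiable ℂ (G k)
  pos : 0 < e
  hom : ∀ j, (P j).IsHomogeneous e
  eq : ∀ j z, f j z = eval (fun k => G k z) (P j)
  ne : ∀ z, ∃ j, f j z ≠ 0

/-- The homogeneous coordinates of an entire curve: entire functions without common zeros. -/
structure EntireCurve (f : Fin (N + 1) → ℂ → ℂ) : Prop where
  hol : ∀ j, Differentiable ℂ (f j)
  ne : ∀ z, ∃ j, f j z ≠ 0

/-- The curve lies in the zero set of the forms of `S`. -/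
def InSet (S : Set (MvPolynomial (Fin (N + 1)) ℂ)) (f : Fin (N + 1) → ℂ → ℂ) : Prop :=
  ∀ F ∈ S, ∀ z, eval (fun j => f j z) F = 0

/-- The point with the homogeneous coordinates `v` lies on a nonconstant rational curve in the zero set
of `S`, given by polynomials of degree at most `B`. -/
def OnRational (S : Set (MvPolynomial (Fin (N + 1)) ℂ)) (B : ℕ) (v : Fin (N + 1) → ℂ) : Prop :=
  ∃ p : Fin (N + 1) → Polynomial ℂ, (∀ j, (p j).natDegree ≤ B) ∧ (∀ F ∈ S, aeval p F = 0) ∧
    (∃ s t j k, (p j).eval s * (p k).eval t ≠ (p k).eval s * (p j).eval t) ∧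
    ∃ t, ∀ j, (p j).eval t = v j

theorem N₁_eq {h : ℂ → ℂ} {r : ℝ} (hr : 1 ≤ r) (hfin : {z : ℂ | h z = 0 ∧ ‖z‖ ≤ r}.Finite) :
    N₁ h r = N131.SR.Nb h r := by
  classical
  have hF : ∀ z, z ∈ hfin.toFinset ↔ h z = 0 ∧ ‖z‖ ≤ r := fun z => by
    rw [Set.Finite.mem_toFinset]
    rfl
  rw [N131.SR.Nb_eq r hfin.toFinset hF]
  unfold N₁
  rw [finsum_mem_eq_finite_toFinset_sum _ hfin]
  have h1 : ∀ z ∈ hfin.toFinset, (if z = 0 then Real.log r else Real.log (r / ‖z‖)) =
      Real.log (r * ‖z‖⁻¹) + if z = 0 then Real.log r else 0 := by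
    intro z _
    by_cases h : z = 0
    · simp [h]
    · simp [h, div_eq_mul_inv]
  rw [Finset.sum_congr rfl h1, Finset.sum_add_distrib, Finset.sum_ite_eq']
  congr 1
  by_cases h0 : h 0 = 0
  · rw [if_pos ((hF 0).2 ⟨h0, by rw [norm_zero]; linarith⟩),
      Set.indicator_of_mem (show (0 : ℂ) ∈ {z : ℂ | h z = 0} from h0)]
    simp
  · rw [if_neg fun h2 => h0 ((hF 0).1 h2).1,
      Set.indicator_of_notMem (show (0 : ℂ) ∉ {z : ℂ | h z = 0} from h0)]
    simp

theorem N₁_nonneg {h : ℂ → ℂ} {r : ℝ} (hr : 1 ≤ r) : 0 ≤ N₁ h r := by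
  unfold N₁
  apply finsum_nonneg
  intro z
  apply finsum_nonneg
  rintro ⟨-, hz⟩
  split_ifs with h0
  · exact Real.log_nonneg hr
  · apply Real.log_nonneg
    rw [le_div_iff₀ (norm_pos_iff.2 h0), one_mul]
    exact hz

/-- the first part -/
theorem part_one (N D M e : ℕ) : ∃ (B : ℕ) (C : ℝ),
    ∀ S : Set (MvPolynomial (Fin (N + 1)) ℂ), (∀ F ∈ S, ∃ m ≤ D, F.IsHomogeneous m) →
      ∀ (G : Fin (M + 1) → ℂ → ℂ) (P : Fin (N + 1) → MvPolynomial (Fin (M + 1)) ℂ)
        (f : Fin (N + 1) → ℂ → ℂ) (n : ℕ) (g : Fin n → ℂ → ℂ), Image e G P f → BasisOf G g →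
        InSet S f →
        (∃ E : Set ℝ, volume E < ⊤ ∧ ∀ r, 1 ≤ r → r ∉ E →
          T f r ≤ C * (N₁ (W g) r + Real.log r + Real.posLog (T G r))) ∨
        ∀ z, OnRational S B fun j => f j z := by
  obtain ⟨B, C, hBC⟩ := dich_pt_fin N M e D
  refine ⟨B, C, fun S hS G P f n g hf hg hin => ?_⟩
  let c : N131.SU.Crv M N n e := ⟨G, P, g, ⟨hf.hol, hf.pos, hf.hom, fun z => by
    obtain ⟨j, hj⟩ := hf.ne z
    refine ⟨j, ?_⟩
    rw [hf.eq] at hj
    exact hj, hg.ind, hg.span⟩⟩
  have hc : c.f = f := by
    funext j z
    rw [hf.eq]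
    rfl
  rcases hBC n c S hS (by rw [hc]; exact hin) with h1 | h1
  · left
    obtain ⟨E, hE, hb⟩ := h1
    refine ⟨E, hE, fun r hr hrE => ?_⟩
    have h2 := hb r hr hrE
    rw [hc] at h2
    obtain ⟨a, b, ha, hb', hgd, hW⟩ := c.D.data
    have e1 : N₁ (W g) r = N131.SR.Nb (N131.SR.Wr g) r :=
      N₁_eq hr (N131.SR.zeros_finite (N131.SR.Wr_diff hgd) hW r)
    have e2 : N131.SR.Nb (fun _ => (1 : ℂ)) r = 0 := by
      rw [N131.SR.Nb_eq r ∅ (fun z => by simp)]
      simp
    have h3 : T f r ≤ C * (N131.SR.Nb (N131.SR.Wr g) r + N131.SR.Nb (fun _ => (1 : ℂ)) r +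
        Real.log r + Real.posLog (T G r)) := h2
    rw [e2, add_zero, ← e1] at h3
    exact h3
  · right
    intro z
    obtain ⟨p, h2, h3, h4, h5⟩ := h1 z
    rw [hc] at h5
    exact ⟨p, h2, h3, h4, 1, h5⟩

/-- Let `X` be the zeros, in complex projective `N`-space, of a set `S` of forms of degree at most `D`.

(1) For all `M` and `e` there are `B` and `C`, which depend only on `N`, `D`, `M` and `e`, such that every
entire curve `f = P(G)` in `X`, with `P` of degree `e`, satisfies the inequality with the constant `C`
or has the property that through every point of `f` passes a rational curve in `X` of degree at most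
`B`.

(2) For all `k` there is `B`, which depends only on `N`, `D` and `k`, such that through every point of
every nonconstant entire curve in `X` whose Wronskian determinant has at most `k` zeros passes a
rational curve in `X` of degree at most `B`. -/
theorem result (N D : ℕ) :
    (∀ M e : ℕ, ∃ (B : ℕ) (C : ℝ),
      ∀ S : Set (MvPolynomial (Fin (N + 1)) ℂ), (∀ F ∈ S, ∃ m ≤ D, F.IsHomogeneous m) →
        ∀ (G : Fin (M + 1) → ℂ → ℂ) (P : Fin (N + 1) → MvPolynomial (Fin (M + 1)) ℂ)
          (f : Fin (N + 1) → ℂ → ℂ) (n : ℕ) (g : Fin n → ℂ → ℂ), Image e G P f → BasisOf G g →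
          InSet S f →
          (∃ E : Set ℝ, volume E < ⊤ ∧ ∀ r, 1 ≤ r → r ∉ E →
            T f r ≤ C * (N₁ (W g) r + Real.log r + Real.posLog (T G r))) ∨
          ∀ z, OnRational S B fun j => f j z) ∧
    ∀ k : ℕ, ∃ B : ℕ,
      ∀ S : Set (MvPolynomial (Fin (N + 1)) ℂ), (∀ F ∈ S, ∃ m ≤ D, F.IsHomogeneous m) →
        ∀ f : Fin (N + 1) → ℂ → ℂ, EntireCurve f → InSet S f →
          (∃ z w i j, f i z * f j w ≠ f j z * f i w) →
          ∀ (n : ℕ) (g : Fin n → ℂ → ℂ), BasisOf f g → {z : ℂ | W g z = 0}.encard ≤ k →
            ∀ z, OnRational S B fun j => f j z := by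
  classical
  refine ⟨part_one N D, fun k => ?_⟩
  obtain ⟨B, C, hBC⟩ := part_one N D N 1
  obtain ⟨C', hC'0, hC'⟩ := N131.SU.absorb C
  refine ⟨max B ⌈(N + 1) * (C' * (k + 1))⌉₊, fun S hS f hf hin hnc n g hg hk => ?_⟩
  have himg : Image 1 f X f := ⟨hf.hol, one_pos, fun j => isHomogeneous_X ℂ j, fun j z => by
    rw [eval_X], hf.ne⟩
  rcases hBC S hS f X f n g himg hg hin with h1 | h1
  · obtain ⟨E, hE, hb⟩ := h1
    have hWf : {z : ℂ | W g z = 0}.Finite := Set.finite_of_encard_le_coe hk
    have hWk : (({z : ℂ | W g z = 0}.ncard : ℕ) : ℝ) ≤ k := by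
      have h1 : ({z : ℂ | W g z = 0}.ncard : ℕ∞) ≤ k := by
        rw [hWf.cast_ncard_eq]
        exact hk
      exact_mod_cast h1
    obtain ⟨c, hc⟩ := N131.SU.Nn_le hWf
    obtain ⟨p, hp0, hpf, hpd⟩ := Rat.exists_rat hf.hol hf.ne (N131.SU.fin_union hE 2)
      (A := C' * (k + 1)) (B := C' * c) fun r hr hrE => by
        have h2 : r ∉ E := fun h => hrE (Or.inl h)
        have h3 : 2 ≤ r := by
          by_contra hcon
          push Not at hcon
          exact hrE (Or.inr ⟨hr, hcon.le⟩)
        have h4 := hC' (T f r) (N₁ (W g) r) r (N₁_nonneg hr) h3 (hb r hr h2)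
        have h5 : N₁ (W g) r ≤ {z : ℂ | W g z = 0}.ncard * Real.log r + c := hc r hr
        have h6 := Real.log_nonneg hr
        have h7 : N₁ (W g) r + Real.log r ≤ (k + 1) * Real.log r + c := by
          nlinarith
        calc N131.SR.Tf f r ≤ C' * (N₁ (W g) r + Real.log r) := h4
          _ ≤ C' * ((k + 1) * Real.log r + c) := mul_le_mul_of_nonneg_left h7 hC'0
          _ = C' * (k + 1) * Real.log r + C' * c := by ring
    intro z0
    obtain ⟨a, ha, haf⟩ := hpf z0
    refine ⟨fun j => Polynomial.C a * p j, fun j => ?_, fun F hF => ?_, ?_, z0, fun j => ?_⟩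
    · refine (Polynomial.natDegree_C_mul_le _ _).trans (le_trans ?_ (le_max_right _ _))
      have h1 := hpd j
      have h2 := Nat.le_ceil ((N + 1) * (C' * (k + 1)))
      have h3 : ((p j).natDegree : ℝ) ≤ ⌈((N : ℝ) + 1) * (C' * (k + 1))⌉₊ := h1.trans h2
      exact_mod_cast h3
    · obtain ⟨m, -, hm⟩ := hS F hF
      apply Polynomial.funext
      intro z
      have h2 := MvPolynomial.comp_aeval_apply (f := fun j => Polynomial.C a * p j)
        (Polynomial.aeval z) F
      simp only [Polynomial.coe_aeval_eq_eval] at h2
      rw [h2, MvPolynomial.aeval_eq_eval, Polynomial.eval_zero]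
      obtain ⟨b, hb', hbf⟩ := hpf z
      have h3 := hin F hF z
      have h4 : (fun j => f j z) = fun j => b * (p j).eval z := funext hbf
      rw [h4, Y377.IL.eval_scale hm, mul_eq_zero, or_iff_right (pow_ne_zero _ hb')] at h3
      have h5 : (fun j => (Polynomial.C a * p j).eval z) = fun j => a * (p j).eval z := by
        funext j
        rw [Polynomial.eval_mul, Polynomial.eval_C]
      change eval (fun j => (Polynomial.C a * p j).eval z) F = 0
      rw [h5, Y377.IL.eval_scale hm, h3, mul_zero]
    · obtain ⟨z, w, i, j, h2⟩ := hnc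
      refine ⟨z, w, i, j, fun h3 => h2 ?_⟩
      obtain ⟨b, hb', hbf⟩ := hpf z
      obtain ⟨b2, hb2', hbf2⟩ := hpf w
      simp only [Polynomial.eval_mul, Polynomial.eval_C] at h3
      have h4 : (p i).eval z * (p j).eval w = (p j).eval z * (p i).eval w := by
        apply mul_left_cancel₀ (mul_ne_zero ha ha)
        linear_combination h3
      rw [hbf i, hbf2 j, hbf j, hbf2 i]
      linear_combination b * b2 * h4
    · rw [Polynomial.eval_mul, Polynomial.eval_C]
      exact (haf j).symm
  · intro z
    obtain ⟨p, h2, h3⟩ := h1 z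
    exact ⟨p, fun j => (h2 j).trans (le_max_left _ _), h3⟩

end Pool.Agent.Results.MP_2a5ae2_ag.FewRamificationPoints
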