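import Pool.Agent.W602.TL.Proj

/-!
# Entire curves meeting an arbitrary line arrangement with large mean multiplicity

Let `ℓ i = 0` be `q` distinct lines of the projective plane, at most `K` of them through any point,
and let `μ > 1` with `4 μ² < q (μ - 1)²` and `2 K μ < q (μ - 1)`.  The arrangement need not be in
general position, and `μ` may be arbitrarily close to `1`.

1. There is one algebraic curve `R = 0` which contains all nonconstant entire curves in the plane
   that meet the lines with mean multiplicity at least `μ`.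
2. Let `X` be a projective variety with a dominant morphism to the plane which has finite fibres
   over the complement of a curve and is ramified over the lines with mean multiplicity at least
   `μ`.  Then all entire curves in `X` lie in one proper closed subset: the Green-Griffiths-Lang
   property for `X`.
3. For `μ = 2`: `17` lines, at most `4` of them through any point, are enough.
-/

set_option autoImplicit false

namespace Pool.Agent.Results.MP_2a5ae2_ag.LineArrangementCovers

open Pool.Agent.W602.TL MvPolynomial Filter Topology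

/-- `ℓ i = 0` are distinct lines of the projective plane, at most `K` of them through a point. -/
def Arrangement {q : ℕ} (ℓ : Fin q → Fin 3 → ℂ) (K : ℕ) : Prop :=
  (∀ i j, i ≠ j → ∀ s t : ℂ, s • ℓ i + t • ℓ j = 0 → s = 0 ∧ t = 0) ∧
    ∀ x : Fin 3 → ℂ, x ≠ 0 → (Finset.univ.filter fun i => ∑ j, ℓ i j * x j = 0).card ≤ K

/-- A nonconstant entire curve in the projective plane, in homogeneous coordinates. -/
structure PlaneCurve (F : ℂ → Fin 3 → ℂ) : Prop where
  diff : ∀ j, Differentiable ℂ fun z => F z j
  ne : ∀ z, F z ≠ 0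
  nonconst : ∃ z z', ∀ t : ℂ, F z' ≠ t • F z

/-- The curve meets the lines with mean multiplicity at least `μ`: at every `z` at which the
intersection multiplicities `a i` with all the lines are finite, the mean of the nonzero numbers
among the `a i` is at least `μ`. -/
def MeetsWithMean {q : ℕ} (ℓ : Fin q → Fin 3 → ℂ) (μ : ℝ) (F : ℂ → Fin 3 → ℂ) : Prop :=
  ∀ z, ∀ a : Fin q → ℕ, (∀ i, analyticOrderAt (fun w => ∑ j, ℓ i j * F w j) z = a i) →
    μ * (Finset.univ.filter fun i => a i ≠ 0).card ≤ ∑ i, (a i : ℝ)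

theorem cr_ne {a b : Fin 3 → ℂ} (h : ∀ s t : ℂ, s • a + t • b = 0 → s = 0 ∧ t = 0) :
    cr a b ≠ 0 := by
  intro h0
  have e0 : a 1 * b 2 - a 2 * b 1 = 0 := congrFun h0 0
  have e1 : a 2 * b 0 - a 0 * b 2 = 0 := congrFun h0 1
  have e2 : a 0 * b 1 - a 1 * b 0 = 0 := congrFun h0 2
  have hb : b = 0 := by
    have k0 := h (b 0) (-(a 0)) (by
      funext j; fin_cases j <;> simp <;> [ring; linear_combination -e2; linear_combination e1])
    have k1 := h (b 1) (-(a 1)) (by
      funext j; fin_cases j <;> simp <;> [linear_combination e2; ring; linear_combination -e0])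
    have k2 := h (b 2) (-(a 2)) (by
      funext j; fin_cases j <;> simp <;> [linear_combination -e1; linear_combination e0; ring])
    funext j
    fin_cases j
    · exact k0.1
    · exact k1.1
    · exact k2.1
  have := (h 0 1 (by rw [hb]; simp)).2
  exact one_ne_zero this

/-- The theorem for curves in the plane. -/
theorem plane {q K : ℕ} (hK : 1 ≤ K) {μ : ℝ} (hμ : 1 < μ) (h1 : 4 * μ ^ 2 < q * (μ - 1) ^ 2)
    (h2 : 2 * K * μ < q * (μ - 1)) {ℓ : Fin q → Fin 3 → ℂ} (hℓ : Arrangement ℓ K) :
    ∃ (R : MvPolynomial (Fin 3) ℂ) (e : ℕ), R.IsHomogeneous e ∧ R ≠ 0 ∧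
      ∀ F, PlaneCurve F → MeetsWithMean ℓ μ F → ∀ z, eval (F z) R = 0 := by
  obtain ⟨A, B, hBA, hAB, g1, g2⟩ := exists_AB hμ h1 h2
  have hq : 2 ≤ q := by
    have hK' : (1 : ℝ) ≤ K := by exact_mod_cast hK
    have h3 : (2 : ℝ) * μ < q * μ := by
      have h5 : (0 : ℝ) ≤ q := Nat.cast_nonneg q
      nlinarith
    have h4 : (2 : ℝ) < q := lt_of_mul_lt_mul_right h3 (by linarith)
    have : 2 < q := by exact_mod_cast h4
    omega
  obtain ⟨p, rfl⟩ : ∃ p, q = p + 1 := ⟨q - 1, by omega⟩
  have hKp : K < p + 1 := by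
    have h3 : 2 * (K * A) < (p + 1) * A := by
      calc 2 * (K * A) < (p + 1) * (A - B) := g2
        _ ≤ (p + 1) * A := Nat.mul_le_mul_left _ (Nat.sub_le _ _)
    have h4 : (2 * K) * A < (p + 1) * A := by rw [mul_assoc]; exact h3
    have := lt_of_mul_lt_mul_right h4 (Nat.zero_le A)
    omega
  have hA : Arr ℓ K :=
    { dist := fun i j hij => cr_ne (hℓ.1 i j hij)
      conc := fun x hx => by
        have := hℓ.2 x hx
        simp only [sum_dt] at this
        exact this
      hK := hKp
      hp := by omega }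
  obtain ⟨R, e, hR, hR0, hRF⟩ := mean_core hA hBA hK g1 g2
  refine ⟨R, e, hR, hR0, fun F hF hM z => hRF F hF.diff hF.ne hF.nonconst ?_ z⟩
  intro z a ha
  have h5 := hM z a (fun i => by
    have h7 : (fun w => ∑ j, ℓ i j * F w j) = UF ℓ F i := by
      funext w
      exact sum_dt _ _
    rw [h7]
    exact ha i)
  have h6 : (A : ℝ) * (Finset.univ.filter fun i => a i ≠ 0).card ≤ B * ∑ i, (a i : ℝ) := by
    calc (A : ℝ) * (Finset.univ.filter fun i => a i ≠ 0).card
        ≤ B * μ * (Finset.univ.filter fun i => a i ≠ 0).card := by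
          gcongr
      _ = B * (μ * (Finset.univ.filter fun i => a i ≠ 0).card) := by ring
      _ ≤ _ := by gcongr
  exact_mod_cast h6

/-- The theorem for varieties over the plane. -/
theorem variety {q K : ℕ} (hK : 1 ≤ K) {μ : ℝ} (hμ : 1 < μ) (h1 : 4 * μ ^ 2 < q * (μ - 1) ^ 2)
    (h2 : 2 * K * μ < q * (μ - 1)) {ℓ : Fin q → Fin 3 → ℂ} (hℓ : Arrangement ℓ K)
    {N : ℕ} (X : BiSet N) (hX : X.MeanRamified ℓ μ) (hdom : X.Dominant) (hfin : X.GenFinite) :
    X.PseudoBrody := by
  obtain ⟨R, e, hR, hR0, hRF⟩ := plane hK hμ h1 h2 hℓ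
  obtain ⟨D, d, hD, hD0, hDF⟩ := hfin
  obtain ⟨u0, v0, hm0, he0⟩ := hdom (R * D) (e + d) (hR.mul hD) (mul_ne_zero hR0 hD0)
  have hev : ∀ (u : Fin (N + 1) → ℂ) (v : Fin 3 → ℂ),
      ev2 u v (rename Sum.inr (R * D)) = eval v R * eval v D := by
    intro u v
    unfold ev2
    rw [eval_rename, Sum.elim_comp_inr, map_mul]
  refine ⟨rename Sum.inr (R * D), ⟨0, e + d, ?_⟩, ⟨u0, v0, hm0, ?_⟩, ?_⟩
  · intro s t u v
    rw [hev, hev, pow_zero, one_mul, eval_smul_hom hR, eval_smul_hom hD, pow_add]
    ring
  · rw [hev, ← map_mul]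
    exact he0
  · intro u v h z
    rw [hev]
    by_cases hc : ∃ z z', ∀ t : ℂ, v z' ≠ t • v z
    · have : eval (v z) R = 0 := hRF v ⟨h.diffv, fun z => (h.mem z).2.1, hc⟩ (by
        intro z1 a ha
        have hord : ∀ i, analyticOrderAt (fun w => ∑ j, ℓ i j * v (w + z1) j) 0 = a i := by
          intro i
          have e1 : (fun w => ∑ j, ℓ i j * v (w + z1) j)
              = (fun w => ∑ j, ℓ i j * v w j) ∘ fun w => w + z1 := rfl
          have hd : deriv (fun w : ℂ => w + z1) 0 ≠ 0 := by
            rw [deriv_add_const, deriv_id'']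
            exact one_ne_zero
          rw [e1, analyticOrderAt_comp_of_deriv_ne_zero (by fun_prop) hd, zero_add]
          exact ha i
        have harc : X.Arc (fun w => u (w + z1)) (fun w => v (w + z1)) := by
          refine ⟨fun j => ?_, fun j => ?_, Filter.Eventually.of_forall fun w => h.mem _⟩
          · exact ((h.diffu j).comp (differentiable_id.add_const z1)).analyticAt 0
          · exact ((h.diffv j).comp (differentiable_id.add_const z1)).analyticAt 0
        exact hX _ _ harc a hord) z
      rw [this, zero_mul]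
    · push Not at hc
      have : eval (v z) D = 0 := by
        by_contra hDz
        obtain ⟨T, hT⟩ := hDF (v z) hDz
        have hmem : ∀ w, X.Mem (u w) (v z) := by
          intro w
          obtain ⟨t, ht⟩ := hc w z
          refine ⟨(h.mem w).1, (h.mem z).2.1, fun P hP => ?_⟩
          obtain ⟨a, b, hab⟩ := X.hom P hP
          have h3 := hab 1 t (u w) (v w)
          rw [one_smul, ← ht, (h.mem w).2.2 P hP, mul_zero] at h3
          exact h3
        have hcst := const_of_finite h.diffu (fun w => (h.mem w).1)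
          (fun w => hT _ (hmem w))
        obtain ⟨w, w', hww⟩ := h.nonconst
        rcases hww with h2 | h2
        · obtain ⟨c, hc'⟩ := hcst w w'
          exact h2 c hc'
        · obtain ⟨c, hc'⟩ := hc w w'
          exact h2 c hc'
      rw [this, mul_zero]

/-- **The theorem.** Let `μ > 1`, and let `ℓ i = 0` be `q` distinct lines of the projective plane,
at most `K ≥ 1` of them through any point, with `4 μ² < q (μ - 1)²` and `2 K μ < q (μ - 1)`.
(1) One algebraic curve contains all nonconstant entire curves in the plane that meet the lines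
with mean multiplicity at least `μ`. (2) Every projective variety with a dominant, generically
finite morphism to the plane which is ramified over the lines with mean multiplicity at least `μ`
is pseudo-Brody hyperbolic. (3) For `μ = 2` this applies to any `17` lines with at most four of them
through any point. -/
theorem result :
    (∀ (q K : ℕ) (μ : ℝ) (ℓ : Fin q → Fin 3 → ℂ), 1 ≤ K → 1 < μ →
      4 * μ ^ 2 < q * (μ - 1) ^ 2 → 2 * K * μ < q * (μ - 1) → Arrangement ℓ K →
      (∃ (R : MvPolynomial (Fin 3) ℂ) (e : ℕ), R.IsHomogeneous e ∧ R ≠ 0 ∧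
        ∀ F, PlaneCurve F → MeetsWithMean ℓ μ F → ∀ z, eval (F z) R = 0) ∧
      ∀ (N : ℕ) (X : BiSet N), X.MeanRamified ℓ μ → X.Dominant → X.GenFinite → X.PseudoBrody) ∧
    (∀ ℓ : Fin 17 → Fin 3 → ℂ, Arrangement ℓ 4 →
      ∀ (N : ℕ) (X : BiSet N), X.MeanRamified ℓ 2 → X.Dominant → X.GenFinite → X.PseudoBrody) := by
  refine ⟨fun q K μ ℓ hK hμ h1 h2 hℓ => ⟨plane hK hμ h1 h2 hℓ, fun N X hX hd hf =>
    variety hK hμ h1 h2 hℓ X hX hd hf⟩, fun ℓ hℓ N X hX hd hf => ?_⟩
  exact variety (K := 4) (μ := 2) (by norm_num) (by norm_num) (by norm_num) (by norm_num) hℓ X hX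
    hd hf

end Pool.Agent.Results.MP_2a5ae2_ag.LineArrangementCovers
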