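import Pool.Agent.U207.QC.One

/-!
# The Green–Griffiths–Lang conjecture for entire curves is a question on intersections of quadrics

For quadratic forms `P_i`, `i < c`, in `N + 1` variables consider the covering of `P^N` with group
`(ℤ/2)^c`

`Y : x_i^2 = P_i(h_0, …, h_N), i < c`, in `P^{N+c}`,

when it is a smooth complete intersection of `c` quadrics. Let `E N` be infinite sets of numbers.

Q1 (pseudo-Brody hyperbolic if and only if of general type) for all irreducible projective varieties,
with arbitrary singularities, is equivalent to the following statement on the smooth varieties `Y` with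
`c ∈ E N`: the Zariski closure of the union of all nonconstant entire curves in `Y` is the Zariski
closure of the union of all closed subvarieties of positive dimension which are not of general type,
and no irreducible component of it is of general type.

Proof. See `Pool/Agent/U207/QC`. Let `X = V(S)` be a projective variety in `P^n` given by forms of degree
at most `d`, and `v : P^n → P^N` the Veronese embedding of degree `d`. For all
`c ≥ (2 (N + 1)^3 + 6 N + 5)^2` there is such a `Y`, with `P_i = ℓ_i^2` on `v(X)` for linear forms `ℓ_i`,
so that `Y` contains the `2^c` sheets `x_i = ± ℓ_i(h)`, `h ∈ v(X)`; and all nonconstant entire curves in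
`Y` lie over `v(X)`, that is, on one of the sheets, and so do all closed subvarieties of `Y` of positive
dimension which are not of general type. Here `v(X)` is given by quadratic forms whose Jacobian matrix
has large rank, `P_i = (∑_j a_i^j h_j)^2 + ∑_t a_i^{B + κ t} Q_t(h)`, where the `Q_t` are generic
combinations of these forms and the `a_i` are generic numbers. `P_i(h)` is the value at the node `a_i` of
a polynomial in one variable with coefficients depending on `h`. Along an entire curve the method of
Büchi's problem (Vojta, Pasten) shows that this polynomial is a square up to a factor, and then an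
argument with the derivative shows that the curve is constant or all `Q_t(h)` are zero.

If `X` is of general type and one of the sheets is contained in the exceptional set of `Y`, then it is a
component of it; conversely the Zariski closure of an entire curve is a variety to which the
conjecture applies.
-/

set_option autoImplicit false

namespace Pool.Agent.Results.MP_2a5ae2_ag.QuadricCoversSuffice

open MvPolynomial Metric
open Pool.Agent.W602.GT (SubVar GeneralType)
open Pool.Agent.N254.SQ (IsForm Eqs Component OnSpecial OnCurves)
open Pool.Agent.U207.QC (coverForm coverEqs SmoothCover)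

/-- Q1 for all irreducible projective varieties of positive dimension: the irreducible closed set in
`P^n` with function field `L` and generic point `y` is of general type if and only if it is pseudo-Brody
hyperbolic, that is, some form `G` which does not vanish on it vanishes on all nonconstant entire
curves. -/
def GreenGriffithsLang : Prop :=
  ∀ (n : ℕ) (L : Type) [Field L] [Algebra ℂ L] (w : ℕ) (y : Fin (n + 1) → L), 1 ≤ w →
    SubVar (fun p : (∅ : Set (MvPolynomial (Fin (n + 1)) ℂ)) => (p : MvPolynomial (Fin (n + 1)) ℂ))
      L w y →
    (GeneralType ℂ L w ↔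
      ∃ G : MvPolynomial (Fin (n + 1)) ℂ, IsForm G ∧ aeval y G ≠ 0 ∧ OnCurves (Eqs y) G)

/-- the same forms vanish on all nonconstant entire curves in `Y = {x_i ^ 2 = P_i(h)}` and on all closed
subvarieties of positive dimension which are not of general type, and no irreducible component of this
set is of general type -/
def ExceptionalSets {N c : ℕ} (P : Fin c → MvPolynomial (Fin (N + 1)) ℂ) : Prop :=
  (∀ G, IsForm G → (OnCurves (coverEqs P) G ↔ OnSpecial (coverEqs P) G)) ∧
    ∀ (L : Type) [Field L] [Algebra ℂ L] (w : ℕ) (y : Fin (N + c + 1) → L), 1 ≤ w →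
      SubVar (coverForm P) L w y → GeneralType ℂ L w → ¬ Component (OnSpecial (coverEqs P)) y

open Pool.Agent.N254.SQ (Gen LogGeneral OnCurvesQ OnSpecialQ) in
open Pool.Agent.U207.QC in
theorem result (E : ℕ → Set ℕ) (hE : ∀ N, (E N).Infinite) :
    GreenGriffithsLang ↔
      ∀ (N c : ℕ) (P : Fin c → MvPolynomial (Fin (N + 1)) ℂ), c ∈ E N →
        (∀ i, (P i).IsHomogeneous 2) → SmoothCover P → ExceptionalSets P := by
  have hS := exc0_of (Pool.Agent.N254.SQ.t_qspec Pool.Agent.N254.SQ.t_cent)
  have hC := exc0_of Pool.Agent.N254.SQ.t_qcurv
  have hform : ∀ n, ∀ H ∈ ({1} : Set (MvPolynomial (Fin (n + 1)) ℂ)), IsForm H := by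
    intro n H hH
    rw [Set.mem_singleton_iff] at hH
    rw [hH]
    exact ⟨0, isHomogeneous_one _ _⟩
  have hren : ∀ N c : ℕ, (rename (hI N c) '' ({1} : Set (MvPolynomial (Fin (N + 1)) ℂ)) :
      Set (MvPolynomial (Fin (N + c + 1)) ℂ)) = {1} := by
    intro N c
    rw [Set.image_singleton, map_one]
  constructor
  · intro h3 N c P _ hP _
    have hA : ∀ p ∈ coverEqs P, IsForm p := by
      rintro _ ⟨i, rfl⟩
      exact ⟨2, cover_hom hP i⟩
    have key : ∀ (L : Type) [Field L] [Algebra ℂ L] (w : ℕ) (y : Fin (N + c + 1) → L), 1 ≤ w →
        Gen L w y → Pool.Agent.N254.SQ.NotIn {1} y →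
        (LogGeneral {1} L w y ↔ ∃ G, IsForm G ∧ aeval y G ≠ 0 ∧ OnCurvesQ (Eqs y) {1} G) := by
      intro L _ _ w y hw hy _
      rw [log_one hy.ne, h3 (N + c) L w y hw (sub_of_gen hy)]
      simp only [curves_one]
    have hCe := forw_eq hS hC (N + c) _ (hform (N + c)) key
    refine ⟨fun G hG => ?_, ?_⟩
    · have h1 := hCe (coverEqs P) hA G hG
      rwa [curves_one, special_one] at h1
    · intro L _ _ w y hw hy hlg hcomp
      refine forw_imp hS (N + c) {1} ?_ (coverEqs P) L w y hw (gen_of_sub hy) (notin_one y)
        ((log_one hy.ne w).2 hlg) (comp_congr (fun G _ => (special_one _ G).symm) hcomp)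
      intro L _ _ w y hw hy hn hlg
      obtain ⟨G, hG, hGy, hGc⟩ := (key L w y hw hy hn).1 hlg
      exact ⟨G, hG, hGy, (hCe (Eqs y) (fun p hp => hp.1) G hG).1 hGc⟩
  · intro h n L _ _ w y hw hy
    have hgen := gen_of_sub hy
    constructor
    · intro hlg
      have h1 := imp_cov hC covT_curves clsC_one.cls hE (by
        intro N c P hc hP hsm T hT L _ _ w y hw hy hn hlg hcomp
        rw [Set.mem_singleton_iff] at hT
        subst hT
        rw [hren] at hlg hcomp
        have h5 := h N c P hc hP hsm
        refine h5.2 L w y hw (sub_fun hy) ((log_one hy.ne w).1 hlg) (comp_congr (fun G hG => ?_) hcomp)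
        rw [curves_one]
        exact h5.1 G hG) n {1} rfl L w y hw hgen (notin_one y) ((log_one hy.ne w).2 hlg)
      obtain ⟨G, hG, hGy, hGc⟩ := h1
      exact ⟨G, hG, hGy, (curves_one _ G).1 hGc⟩
    · rintro ⟨G, hG, hGy, hGc⟩
      rw [← log_one hy.ne w]
      refine eq_cov hC covT_curves clsC_one.cls hE (fun N c P hc hP hsm T hT G hG hcc => ?_)
        n {1} rfl L w y hw hgen (notin_one y) ⟨G, hG, hGy, (curves_one _ G).2 hGc⟩
      rw [Set.mem_singleton_iff] at hT
      subst hT
      rw [hren] at hcc ⊢
      rw [special_one]
      exact ((h N c P hc hP hsm).1 G hG).1 ((curves_one _ G).1 hcc)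

end Pool.Agent.Results.MP_2a5ae2_ag.QuadricCoversSuffice
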